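import Pool.Agent.helper53.ORE.Spec

/-! Row ore:BLC: a product of two orthogonal transvections is a product of two long root elements. -/

set_option autoImplicit false

namespace Pool.Agent.ORE

open Module Pool.Agent.GS

theorem BLC_e0 {F V : Type} [Field F] [AddCommGroup V] [Module F V] {Q : QuadraticForm F V}
    (hN : Nd Q) {u a : V} (hu : u ≠ 0) (hi : ∀ t : F, a ≠ t • u) :
    ∃ e, pb Q u e = 0 ∧ pb Q a e = 1 := by
  have h1 : ∃ e1, pb Q u e1 = 1 := by
    by_contra hne
    push Not at hne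
    refine hu (hN u fun y => ?_)
    by_contra h
    refine hne ((pb Q u y)⁻¹ • y) ?_
    rw [map_smul, smul_eq_mul, inv_mul_cancel₀ h]
  obtain ⟨e1, he1⟩ := h1
  by_contra hne
  push Not at hne
  have hz : ∀ e, pb Q u e = 0 → pb Q a e = 0 := by
    intro e he
    by_contra h
    refine hne ((pb Q a e)⁻¹ • e) ?_ ?_
    · rw [map_smul, he, smul_zero]
    · rw [map_smul, smul_eq_mul, inv_mul_cancel₀ h]
  have h2 : ∀ x, pb Q (a - pb Q a e1 • u) x = 0 := by
    intro x
    have h3 := hz (x - pb Q u x • e1) (by rw [map_sub, map_smul, he1, smul_eq_mul, mul_one, sub_self])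
    rw [map_sub, map_smul, smul_eq_mul] at h3
    rw [map_sub, LinearMap.sub_apply, map_smul, LinearMap.smul_apply, smul_eq_mul]
    linear_combination h3
  exact hi (pb Q a e1) (sub_eq_zero.1 (hN _ h2))

theorem BLC_sqrt {F : Type} [Field F] [Finite F] (h2 : (2 : F) = 0) (x : F) :
    ∃ s : F, s ^ 2 = x := by
  have := charP2 h2
  have := Fintype.ofFinite F
  have h : ringChar F = 2 := ringChar.eq F 2
  obtain ⟨s, hs⟩ := FiniteField.isSquare_of_char_two h x
  exact ⟨s, by rw [hs, pow_two]⟩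

theorem BLC (ns : NSV_stmt) : BLC_stmt := by
  intro F V _ _ _ _ _ Q h2 hN hdim y c hBl a ha hli
  have ha' : a = ![a 0, a 1] := by
    funext i
    fin_cases i <;> rfl
  have hq0 : Q (a 0) = 1 := ha.n 0
  have hq1 : Q (a 1) = 1 := ha.n 1
  have hab : pb Q (a 0) (a 1) = 0 := ha.o 0 1 (by decide)
  have hba : pb Q (a 1) (a 0) = 0 := ha.o 1 0 (by decide)
  have hfq : fq Q a = rq Q (a 0) * rq Q (a 1) := by
    conv_lhs => rw [ha']
    exact fq_two h2 hq0 hq1 hab
  have hpair : ∀ s t : F, s • a 0 + t • a 1 = 0 → s = 0 ∧ t = 0 := by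
    rw [ha', LinearIndependent.pair_iff] at hli
    exact hli
  set u : V := a 0 + a 1 with hu
  have hu0 : u ≠ 0 := by
    intro h
    have := (hpair 1 1 (by rw [one_smul, one_smul]; exact h)).1
    exact one_ne_zero this
  have hQu : Q u = 0 := by
    rw [hu, Q_add, hq0, hq1, hab]
    linear_combination h2
  have hua : pb Q u (a 0) = 0 := by
    rw [hu, map_add, LinearMap.add_apply, pb_self2 h2, hba, add_zero]
  have hau : pb Q (a 0) u = 0 := by rw [pb_symm, hua]
  have hi : ∀ t : F, a 0 ≠ t • u := by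
    intro t ht
    have h := hpair (t - 1) t (by
      have : (t - 1) • a 0 + t • a 1 = t • u - a 0 := by rw [hu, smul_add, sub_smul, one_smul]; abel
      rw [this, ← ht, sub_self])
    have h3 : t = 0 := h.2
    have h4 : t - 1 = 0 := h.1
    rw [h3, zero_sub] at h4
    exact one_ne_zero (neg_eq_zero.1 h4)
  obtain ⟨e₀, he1, he2⟩ := BLC_e0 hN hu0 hi
  obtain ⟨x, hx, hQx⟩ := ns Q h2 hN 3 ![u, a 0, e₀] (by omega)
  have hxu : pb Q x u = 0 := hx 0
  have hxa : pb Q x (a 0) = 0 := hx 1
  have hxe : pb Q x e₀ = 0 := hx 2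
  obtain ⟨s, hs⟩ := BLC_sqrt h2 (Q e₀)
  set e : V := e₀ + s • x with he
  have hQe : Q e = 0 := by
    rw [he, Q_add, Q_smul, hQx, map_smul, pb_symm Q e₀ x, hxe, smul_zero, hs]
    linear_combination (Q e₀) * h2
  have hue : pb Q u e = 0 := by
    rw [he, map_add, he1, map_smul, pb_symm Q u x, hxu, smul_zero, add_zero]
  have hae : pb Q (a 0) e = 1 := by
    rw [he, map_add, he2, map_smul, pb_symm Q (a 0) x, hxa, smul_zero, add_zero]
  have hQae : Q (a 0 + e) = 0 := by
    rw [Q_add, hq0, hQe, hae]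
    linear_combination h2
  have huae : pb Q u (a 0 + e) = 0 := by rw [map_add, hua, hue, add_zero]
  have haae : pb Q (a 0) (a 0 + e) = 1 := by rw [map_add, pb_self2 h2, hae, zero_add]
  have hlin : ∀ d : V, pb Q (a 0) d = 1 → LinearIndependent F ![u, d] := by
    intro d hd
    rw [LinearIndependent.pair_iff]
    intro p q hpq
    have h := congrArg (pb Q (a 0)) hpq
    rw [map_add, map_smul, map_smul, hau, hd, smul_zero, zero_add, smul_eq_mul, mul_one,
      map_zero] at h
    rw [h, zero_smul, add_zero] at hpq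
    exact ⟨(smul_eq_zero.1 hpq).resolve_right hu0, h⟩
  have g1 := hBl u e (hlin e hae) hQu hQe hue
  have g2 := hBl u (a 0 + e) (hlin _ haae) hQu hQae huae
  have g3 := Gq.mul g1 g2 (sq_mem Q u e).1
  have e1 : sq Q u e * sq Q u (a 0 + e) = fq Q a := by
    rw [sq_add h2 hQu hue huae, hfq]
    have e2 : e + (a 0 + e) = a 0 := by
      have : e + (a 0 + e) = a 0 + (e + e) := by abel
      rw [this, addV h2, add_zero]
    have hqne : Q (a 0) ≠ 0 := by rw [hq0]; exact one_ne_zero
    have e3 : a 0 + u = a 1 := by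
      rw [hu, ← add_assoc, addV h2, zero_add]
    rw [e2, sq_eq_rq h2 hQu hua hqne, hq0, one_smul, e3]
  rw [e1] at g3
  rw [two_mul]
  exact g3

end Pool.Agent.ORE
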