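import Pool.Agent.helper83.ORE.SpecDE

/-! Row ore:DPZ: properties of the coordinate maps. -/

set_option autoImplicit false

namespace Pool.Agent.ORE

open Module Pool.Agent.GS

theorem DPZ_eq (dnu : DNU_stmt) {F E : Type} [Field F] [Finite F] [Field E] [Finite E]
    [Algebra F E] [FiniteDimensional F E] {ρ : E} (y z : QL ρ)
    (h : ∀ w : QL ρ, Algebra.trace F E (y.re * w.im + y.im * w.re) =
      Algebra.trace F E (z.re * w.im + z.im * w.re)) : y = z := by
  have h1 : y - z = 0 := by
    refine dnu (F := F) ρ (y - z) fun w => ?_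
    have e : (y - z).re * w.im + (y - z).im * w.re =
        (y.re * w.im + y.im * w.re) - (z.re * w.im + z.im * w.re) := by
      rw [QuadraticAlgebra.re_sub, QuadraticAlgebra.im_sub]
      ring
    rw [e, map_sub, h w, sub_self]
  exact sub_eq_zero.1 h1

theorem DPZ (dnu : DNU_stmt) : DPZ_stmt := by
  intro F E V _ _ _ _ _ _ _ _ Q ρ n ζ π hZ hP
  refine ⟨fun i l z => ?_, fun P hPO hPζ i x => ?_⟩
  · by_cases h : i = l
    · rw [if_pos h]
      subst h
      refine DPZ_eq dnu (F := F) _ _ fun w => ?_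
      rw [← hP, hZ.f]
    · rw [if_neg h]
      refine DPZ_eq dnu (F := F) _ _ fun w => ?_
      rw [← hP, hZ.o l i z w (Ne.symm h)]
      simp
  · refine DPZ_eq dnu (F := F) _ _ fun w => ?_
    rw [← hP, ← hP, ← hPζ, OQ_pb hPO]

end Pool.Agent.ORE
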